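import Mathlib
import Pool.Agent.H.MP_2967d5_an.C

namespace Pool.Agent.Results.MP_2967d5_an.No

open MeasureTheory Set Filter Topology ComplexConjugate

/-- invertible measure-preserving transformations -/
def Aut {Z : Type} [MeasurableSpace Z] (ρ : Measure Z) : Type :=
  {T : Z ≃ᵐ Z // MeasurePreserving T ρ ρ}

/-- the weak topology -/
instance weak {Z : Type} [MeasurableSpace Z] (ρ : Measure Z) : TopologicalSpace (Aut ρ) :=
  TopologicalSpace.generateFrom {N | ∃ (T : Aut ρ) (E : Set Z) (ε : ℝ), MeasurableSet E ∧ 0 < ε ∧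
    N = {S | ρ (symmDiff (T.1 '' E) (S.1 '' E)) < ENNReal.ofReal ε}}

/-- strong mixing -/
def Mixing {X : Type} [MeasurableSpace X] (μ : Measure X) (R : X → X) : Prop :=
  ∀ A B, MeasurableSet A → MeasurableSet B →
    Tendsto (fun n => μ.real (R^[n] ⁻¹' A ∩ B)) atTop (𝓝 (μ.real A * μ.real B))

/-- the extensions of R -/
def GR {X Y : Type} [MeasurableSpace X] [MeasurableSpace Y] (μ : Measure X) (ν : Measure Y)
    (R : X → X) : Set (Aut (μ.prod ν)) :=
  {T | ∀ᵐ p ∂μ.prod ν, (T.1 p).1 = R p.1}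

/-- conditional expectation onto the first factor, as a function on X -/
noncomputable def cE {X Y : Type} [MeasurableSpace Y] (ν : Measure Y) (f : X × Y → ℂ) (x : X) :
    ℂ := ∫ y, f (x, y) ∂ν

/-- the space L2(Z|X) -/
def L2rel {X Y : Type} [MeasurableSpace X] [MeasurableSpace Y] (μ : Measure X) (ν : Measure Y)
    (f : X × Y → ℂ) : Prop :=
  MemLp f 2 (μ.prod ν) ∧ MemLp (fun x => √(∫ y, ‖f (x, y)‖ ^ 2 ∂ν)) ⊤ μ

/-- the strongly mixing extensions of R -/
def SR {X Y : Type} [MeasurableSpace X] [MeasurableSpace Y] (μ : Measure X) (ν : Measure Y)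
    (R : X → X) : Set (GR μ ν R) :=
  {T | ∀ f g, L2rel μ ν f → L2rel μ ν g →
    Tendsto (fun n => eLpNorm (fun x => cE ν (fun p => f (T.1.1^[n] p) * conj (g p)) x -
      cE ν f (R^[n] x) * cE ν (fun p => conj (g p)) x) 2 μ) atTop (𝓝 0)}

theorem result :
    (∀ (X Y : Type) [MeasurableSpace X] [StandardBorelSpace X] [MeasurableSpace Y]
      [StandardBorelSpace Y] (μ : Measure X) [IsProbabilityMeasure μ] [NullSingletonClass μ]
      (ν : Measure Y) [IsProbabilityMeasure ν] [NullSingletonClass ν] (R : X ≃ᵐ X),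
      MeasurePreserving R μ μ → Mixing μ R →
        SR μ ν R ∈ residual (GR μ ν R) ∧ ¬ IsMeagre (SR μ ν R)) ∧
    ∃ R : unitInterval ≃ᵐ unitInterval, MeasurePreserving R volume volume ∧
      ¬ IsMeagre (SR (Y := unitInterval) volume volume R) := by
  have key : ∀ (X Y : Type) [MeasurableSpace X] [StandardBorelSpace X] [MeasurableSpace Y]
      [StandardBorelSpace Y] (μ : Measure X) [IsProbabilityMeasure μ] [NullSingletonClass μ]
      (ν : Measure Y) [IsProbabilityMeasure ν] [NullSingletonClass ν] (R : X ≃ᵐ X),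
      MeasurePreserving R μ μ → Mixing μ R →
        SR μ ν R ∈ residual (GR μ ν R) ∧ ¬ IsMeagre (SR μ ν R) := by
    intro X Y _ _ _ _ μ _ _ ν _ _ R hR h
    refine H.MP_2967d5_an.main R hR h fun T hT f g hf hg => hT f (fun p => conj (g p)) hf.1 hf.2
      (hg.1.star) ?_
    simpa only [Complex.norm_conj] using hg.2
  obtain ⟨R, h1, h2⟩ := H.MP_2967d5_an.ex_mix (μ := (volume : Measure unitInterval))
  exact ⟨key, R, h1, (key _ _ _ _ R h1 h2).2⟩

end Pool.Agent.Results.MP_2967d5_an.No
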